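import Mathlib
import Pool.Agent.Helper554.LE.Defs
import Pool.Agent.Helper554.LE.All
import Pool.Agent.T2H88.LE.Sparse

/-!
# Maximum Laplacian energy of connected graphs up to `2κ` (MP_f5811f_co)

Let `M(n,m)` be the largest Laplacian energy of a connected graph with `n` vertices and
`m ≥ n` edges, and `κ(κ-1) ≤ 2(m-n+1) < κ(κ+1)`. With
`V(s) = min (s n, m + s(s+1)/2, 2m - n + 2s) - 2ms/n`

`2 max V - 2κ ≤ M(n,m) ≤ 2 max V` (maximum over `0 ≤ s ≤ n`).
-/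

set_option autoImplicit false

namespace Pool.Agent.Results.MP_f5811f_co.ErrorTwoKappa

open Pool.Agent.Helper554.LE Pool.Agent.T2H88.LE

/-- The number `min (s n, m + s(s+1)/2, 2m - n + 2s) - 2ms/n`. -/
noncomputable def V (n m s : ℕ) : ℝ :=
  min (min ((s : ℝ) * n) (m + s * (s + 1) / 2)) (2 * m - n + 2 * s) - 2 * m / n * s

theorem result :
    ∀ n m κ : ℕ, 3 ≤ n → n ≤ m → m ≤ n.choose 2 →
      κ * (κ - 1) ≤ 2 * (m - n + 1) → 2 * (m - n + 1) < κ * (κ + 1) →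
      ∃ M : ℝ, IsGreatest (Energies n m) M ∧
        (∀ s : ℕ, s ≤ n → 2 * V n m s - 2 * κ ≤ M) ∧
        (∃ s : ℕ, s ≤ n ∧ M ≤ 2 * V n m s) := by
  intro n m κ hn h1 h2 hκ1 hκ2
  have hne : (Energies n m).Nonempty := by
    obtain ⟨e, he, -⟩ := all_lower n m (by omega) (by omega) h2 0 (Nat.zero_le _)
    exact ⟨e, he⟩
  obtain ⟨M, hM, hmax⟩ := Set.exists_max_image (Energies n m) id (energies_finite n m) hne
  simp only [id] at hmax
  refine ⟨M, ⟨hM, fun e he => hmax e he⟩, fun s hs => ?_, ?_⟩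
  · obtain ⟨e, he, hle⟩ := lower_V hn h1 h2 hκ1 hκ2 s hs
    exact hle.trans (hmax e he)
  · obtain ⟨s, hs, hle⟩ := upper_V (by omega) hM
    exact ⟨s, hs, hle⟩

end Pool.Agent.Results.MP_f5811f_co.ErrorTwoKappa
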