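import Mathlib
import Pool.Agent.Helper554.LE.Defs
import Pool.Agent.Helper554.LE.All
import Pool.Agent.T2H88.LE.Dom

/-!
# Threshold graphs are not optimal for sparse connected graphs (MP_f5811f_co)

If `n ≤ m` and `10^9 (m-n+1)^3 ≤ n^4`, then no graph with a dominating vertex, in particular no
connected threshold graph and no pineapple, has the largest Laplacian energy among the connected
graphs with `n` vertices and `m` edges.
-/

set_option autoImplicit false

namespace Pool.Agent.Results.MP_f5811f_co.NoDominatingVertex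

open Pool.Agent.Helper554.LE Pool.Agent.T2H88.LE

theorem result :
    ∀ n m : ℕ, n ≤ m → m ≤ n.choose 2 → 10 ^ 9 * (m - n + 1) ^ 3 ≤ n ^ 4 →
      ∃ M : ℝ, IsGreatest (Energies n m) M ∧
        ∀ (G : SimpleGraph (Fin n)) (_ : DecidableRel G.Adj), G.edgeFinset.card = m →
          (∃ w, ∀ v, v ≠ w → G.Adj v w) → lapEnergy G < M := by
  intro n m h1 h2 hC
  have hn : 3 ≤ n := by
    by_contra h
    have h3 : n ^ 4 ≤ 2 ^ 4 := Nat.pow_le_pow_left (by omega) 4
    have h4 : 1 ≤ (m - n + 1) ^ 3 := Nat.one_le_pow _ _ (by omega)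
    omega
  have hne : (Energies n m).Nonempty := by
    obtain ⟨e, he, -⟩ := all_lower n m (by omega) (by omega) h2 0 (Nat.zero_le _)
    exact ⟨e, he⟩
  obtain ⟨M, hM, hmax⟩ := Set.exists_max_image (Energies n m) id (energies_finite n m) hne
  simp only [id] at hmax
  refine ⟨M, ⟨hM, fun e he => hmax e he⟩, fun G _ hm hw => ?_⟩
  obtain ⟨w, hw⟩ := hw
  exact dom_lt h1 hC hmax G hm w hw

end Pool.Agent.Results.MP_f5811f_co.NoDominatingVertex
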