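import Mathlib
import Pool.Agent.Helper554.LE.Defs
import Pool.Agent.T2H88.LE.Ext4
import Pool.Agent.T2H88.LE.Lin5

/-!
# The second order term of the maximum Laplacian energy of connected graphs (MP_f5811f_co)

Let `M(n,m)` be the largest Laplacian energy of a connected graph with `n` vertices and `m` edges,
and `e = m - n`.  If `e → ∞` and `e = o(n)` then `M(n,m) = 4m - 2n - (8 √2 + o(1)) e^(3/2) / n`;
if `e` is of the exact order `n` then
`M(n,m) = 4m - 2n - (4 √2 e^(3/2) / n) (1 + n / (n + 2 e)) + o(√n)`.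
-/

set_option autoImplicit false

namespace Pool.Agent.Results.MP_f5811f_co.SecondOrderTerm

open Pool.Agent.Helper554.LE Pool.Agent.T2H88.LE

theorem result :
    (∀ ε : ℝ, 0 < ε → ∃ δ : ℝ, 0 < δ ∧ ∃ N : ℕ, ∀ n m : ℕ, n + N ≤ m →
      (m : ℝ) - n ≤ δ * n →
      ∃ M : ℝ, IsGreatest (Energies n m) M ∧
        |M - (4 * m - 2 * n - 8 * Real.sqrt 2 * ((m - n) * Real.sqrt (m - n)) / n)| ≤
          ε * ((m - n) * Real.sqrt (m - n)) / n) ∧
    (∀ ε g : ℝ, 0 < ε → 0 < g → g ≤ 1 → ∃ N : ℕ, ∀ n m : ℕ, N ≤ n →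
      g * n ≤ (m : ℝ) - n → g * ((m : ℝ) - n) ≤ n →
      ∃ M : ℝ, IsGreatest (Energies n m) M ∧
        |M - (4 * m - 2 * n - 4 * Real.sqrt 2 * ((m - n) * Real.sqrt (m - n)) *
          (1 / n + 1 / (2 * (m - n) + n)))| ≤ ε * ((m - n) * Real.sqrt (m - n)) / n) :=
  ⟨fun _ hε => ext_main hε, fun _ _ hε h1 h2 => lin_main hε h1 h2⟩

end Pool.Agent.Results.MP_f5811f_co.SecondOrderTerm
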