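import Mathlib
import Pool.Agent.Helper554.LE.Defs
import Pool.Agent.Helper554.LE.All
import Pool.Agent.T2H88.LE.Cor

/-!
# Maximum Laplacian energy of sparse connected graphs (MP_f5811f_co)

Let `M(n,m)` be the largest Laplacian energy of a connected graph with `n` vertices and
`m ≥ n` edges, and let `k` be the least integer with `(k-1)(k-2) ≥ 2(m-n+1)`. Then

`4m - 2n - 250 (m-n+1)^(3/2) / n ≤ M(n,m) ≤ 4m - 2n`,

and, if `2k ≤ n`,

`4m - 2n - 4k(m-n)/n - min (4(m-n+k)/⌊n/k⌋, 2k(k-1)/(k-2+⌊n/k⌋)) ≤ M(n,m)`,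

while `M(n,m) ≤ 4m - 2n - 4k(m-n)/n` if moreover `2m ≤ 3n`.

The lower bounds come from graphs with `k` hubs which carry equally many pendant vertices.
-/

set_option autoImplicit false

namespace Pool.Agent.Results.MP_f5811f_co.SparseTwoSided

open Pool.Agent.Helper554.LE Pool.Agent.T2H88.LE

theorem result :
    ∀ n m : ℕ, 3 ≤ n → n ≤ m → m ≤ n.choose 2 →
      ∃ M : ℝ, IsGreatest (Energies n m) M ∧
        M ≤ 4 * m - 2 * n ∧
        4 * (m : ℝ) - 2 * n - 250 * ((m - n + 1) * Real.sqrt (m - n + 1)) / n ≤ M ∧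
        (∀ k : ℕ, 3 ≤ k → 2 * k ≤ n → 2 * m ≤ 3 * n → (k - 2) * (k - 3) < 2 * (m - n + 1) →
          M ≤ 4 * m - 2 * n - 4 * k * (m - n) / n) ∧
        (∀ k : ℕ, 3 ≤ k → 2 * k ≤ n → 2 * (m - n + 1) ≤ (k - 1) * (k - 2) →
          4 * (m : ℝ) - 2 * n - 4 * k * (m - n) / n
            - min (4 * (m - n + k) / ((n / k : ℕ) : ℝ))
                (2 * k * (k - 1) / (k - 2 + ((n / k : ℕ) : ℝ))) ≤ M) := by
  intro n m hn h1 h2
  have hne : (Energies n m).Nonempty := by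
    obtain ⟨e, he, -⟩ := all_lower n m (by omega) (by omega) h2 0 (Nat.zero_le _)
    exact ⟨e, he⟩
  obtain ⟨M, hM, hmax⟩ := Set.exists_max_image (Energies n m) id (energies_finite n m) hne
  simp only [id] at hmax
  refine ⟨M, ⟨hM, fun e he => hmax e he⟩, ?_, lower_cor hn h1 hmax hne, ?_, ?_⟩
  · obtain ⟨s, -, hle⟩ := upper_V (by omega) hM
    have := Vb_le' (s := s) (by omega : 1 ≤ n) h1
    linarith
  · intro k hk hkn h3 hmin
    obtain ⟨s, -, hle⟩ := upper_V (by omega) hM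
    have := Vb_le (s := s) (by omega : 1 ≤ n) h1 h3 hk hkn hmin
    have h4 : 4 * (k : ℝ) * ((m : ℝ) - n) / n = 2 * (2 * k * ((m : ℝ) - n) / n) := by ring
    rw [h4]
    linarith
  · intro k hk hkn hf
    obtain ⟨e1, e2⟩ := multi_both (by omega) hkn h1 hf hmax
    rcases le_total (4 * ((m : ℝ) - n + k) / ((n / k : ℕ) : ℝ))
      (2 * k * (k - 1) / (k - 2 + ((n / k : ℕ) : ℝ))) with h | h
    · rw [min_eq_left h]; exact e1
    · rw [min_eq_right h]; exact e2

end Pool.Agent.Results.MP_f5811f_co.SparseTwoSided
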